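import Pool.Agent.Helper66.HK.Stmts

set_option autoImplicit false

/-! Sticky Kakeya sets, core of the Hausdorff form: module CD (the final configuration). -/

namespace Pool.Agent.Helper4.HK

open Finset Pool.Agent.Helper69.RK Pool.Agent.Helper66.HK

noncomputable section

/-! ### general facts -/

theorem hs_mono {m n : ℕ} {η η' : ℝ} {Ω ζ : Type} [Fintype Ω] {μ : Ω → ℝ} {Z : Ω → ζ}
    {a x : Ω → Fin m → ℝ} {t : Ω → ℝ} (h : HS m n η μ Z a x t) (hη : η ≤ η') :
    HS m n η' μ Z a x t := by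
  have hn : (0 : ℝ) ≤ n := Nat.cast_nonneg n
  have h1 : η * n ≤ η' * n := mul_le_mul_of_nonneg_right hη hn
  refine ⟨h.nn, h.ms, h.ab, h.xb, h.tb, fun k hk => (h.st k hk).trans h1, ?_, h.h2.trans h1⟩
  have := h.h1
  linarith

/-- the second variable of the mutual information can be replaced by a function of it -/
theorem mi_fun (hE2 : ST_E2) {Ω α β β' γ : Type} [Fintype Ω] {μ : Ω → ℝ} (h0 : ∀ ω, 0 ≤ μ ω)
    (f : Ω → α) (h : Ω → β) (h' : Ω → β') (g : Ω → γ) (hd : Dep μ h h') :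
    MI μ f h' g ≤ MI μ f h g := by
  unfold MI
  have h1 := hE2.2.1 Ω α (β' × γ) (β × γ) μ f (fun ω => (h' ω, g ω)) (fun ω => (h ω, g ω)) h0 (by
    intro ω ω' h1 h2 h3
    have e1 := (Prod.ext_iff.1 h3).1
    have e2 := (Prod.ext_iff.1 h3).2
    exact Prod.ext (hd ω ω' h1 h2 e1) e2)
  linarith

/-- the first variable can be replaced by a function of it -/
theorem mi_fun' (hE1 : ST_E1) (hE2 : ST_E2) {Ω α α' β γ : Type} [Fintype Ω] {μ : Ω → ℝ}
    (h0 : ∀ ω, 0 ≤ μ ω) (f : Ω → α) (f' : Ω → α') (h : Ω → β) (g : Ω → γ) (hd : Dep μ f f') :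
    MI μ f' h g ≤ MI μ f h g := by
  have key : ∀ (δ : Type) (g : Ω → δ), CH μ f g = CH μ f' g + CH μ f (fun ω => (f' ω, g ω)) := by
    intro δ g
    have h1 := (hE1 Ω α' α δ μ f' f g h0).2.1
    have h2 := hE2.1 Ω (α' × α) α δ μ (fun ω => (f' ω, f ω)) f g h0 (by
      intro ω ω' e1 e2 e3
      have e4 := (Prod.ext_iff.1 e3).1
      exact Prod.ext (hd ω ω' e1 e2 e4) e4)
    have h3 := hE2.1 Ω α (α' × α) δ μ f (fun ω => (f' ω, f ω)) g h0 (by
      intro ω ω' e1 e2 e3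
      exact (Prod.ext_iff.1 (Prod.ext_iff.1 e3).1).2)
    linarith
  unfold MI
  have h1 := key γ g
  have h2 := key (β × γ) (fun ω => (h ω, g ω))
  have h3 := hE2.2.1 Ω α (α' × γ) (α' × β × γ) μ f (fun ω => (f' ω, g ω))
    (fun ω => (f' ω, h ω, g ω)) h0 (by
      intro ω ω' e1 e2 e3
      have e4 := (Prod.ext_iff.1 e3).1
      have e5 := (Prod.ext_iff.1 (Prod.ext_iff.1 e3).2).2
      exact Prod.ext e4 e5)
  linarith

/-! ### numerical facts -/

theorem num1 {A y z : ℝ} (h1 : y * (16 * A) ≤ z) (h2 : 2 * (A + 3) ≤ z) (hz : 0 ≤ z) :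
    A * (y + 1) + 3 ≤ z := by
  have e1 : A * (y + 1) + 3 = y * A + A + 3 := by ring
  have e2 : y * (16 * A) = 16 * (y * A) := by ring
  rw [e1]
  rw [e2] at h1
  linarith

theorem num2 {κ n w : ℝ} (hκ4 : κ ≤ 1 / 4) (hn : 0 ≤ n) (h : 2 * w ≤ n) : κ * n ≤ n - w := by
  have := mul_le_mul_of_nonneg_right hκ4 hn
  linarith

theorem num3 {w M n : ℕ} (h : w * M ≤ n) (hM : 2 ≤ M) : 2 * w ≤ n := by
  have := Nat.mul_le_mul_left w hM
  omega

theorem num4 {y A z : ℝ} (h1 : y * (16 * A) ≤ z) (hz : 0 ≤ y) (hA : 1 ≤ A) :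
    A * 2 * y ≤ z ∧ y ≤ z ∧ y * A ≤ z / 16 ∧ y ≤ z / 16 := by
  have e1 : y * (16 * A) = 16 * (y * A) := by ring
  have e2 : A * 2 * y = 2 * (y * A) := by ring
  have e3 : y ≤ y * A := le_mul_of_one_le_right hz hA
  rw [e1] at h1
  rw [e2]
  refine ⟨?_, ?_, ?_, ?_⟩ <;> linarith

/-! ### the module -/

theorem st_CD (hCC : ST_CC) (hCDA : ST_CDA) (hSMP : ST_SMP) (hTWO : ST_TWO) (hWL : ST_WL)
    (hWN : ST_WN) (hE1 : ST_E1) (hE2 : ST_E2) : ST_CD := by
  classical
  intro m γ ν hG hN hnot L M κ s hM hκ hκ4 hs n0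
  have hL0 : (0 : ℝ) < 2 ^ L := by positivity
  set ε1 : ℝ := s / (8 * 2 ^ L) with hε1
  have hε1pos : 0 < ε1 := by positivity
  have hε1s : ε1 ≤ s / 8 := by
    rw [hε1]
    apply div_le_div_of_nonneg_left hs.le (by norm_num)
    have : (1 : ℝ) ≤ 2 ^ L := one_le_pow₀ (by norm_num)
    linarith
  obtain ⟨η2, hη2, n2, hT⟩ := hTWO m M γ ν (by omega) (hWL m γ hG) (hWN m γ ν hN) ε1 hε1pos
  obtain ⟨η3, hη3, n3, hNB⟩ := hN ε1 hε1pos
  have hnot' := hnot ε1 hε1pos
  unfold NB at hnot'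
  push Not at hnot'
  obtain ⟨ε', hε', hnot'⟩ := hnot'
  -- the parameter
  set η : ℝ := min (min η2 η3) (min s (s * κ)) / 2 ^ (L + 4) with hη
  have hminpos : 0 < min (min η2 η3) (min s (s * κ)) := by
    refine lt_min (lt_min hη2 hη3) (lt_min hs (by positivity))
  have hηpos : 0 < η := by positivity
  have hηmul : η * (16 * 2 ^ L) = min (min η2 η3) (min s (s * κ)) := by
    rw [hη, pow_add]
    field_simp
    norm_num
  have hL1 : (1 : ℝ) ≤ 2 ^ L := one_le_pow₀ (by norm_num)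
  have b2 : η * (16 * 2 ^ L) ≤ η2 := by
    rw [hηmul]
    exact (min_le_left _ _).trans (min_le_left _ _)
  have b3 : η * (16 * 2 ^ L) ≤ η3 := by
    rw [hηmul]
    exact (min_le_left _ _).trans (min_le_right _ _)
  have bs : η * (16 * 2 ^ L) ≤ s := by
    rw [hηmul]
    exact (min_le_right _ _).trans (min_le_left _ _)
  have bk : η * (16 * 2 ^ L) ≤ s * κ := by
    rw [hηmul]
    exact (min_le_right _ _).trans (min_le_right _ _)
  have hη16 : η ≤ η * (16 * 2 ^ L) := le_mul_of_one_le_right hηpos.le (by linarith)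
  have bη2 : η ≤ η2 := hη16.trans b2
  have bη3 : η ≤ η3 := hη16.trans b3
  obtain ⟨n4, hn4⟩ := exists_nat_ge (2 * (2 ^ L + 3) / (κ * s))
  obtain ⟨n, hnn, Ω, ζ, θ, _, μ, Z, a, x, t, Θ, Λ, hHS, hMI, hYn, hbig⟩ :=
    hnot' η hηpos (max (max n0 n2) (max n3 (max n4 1)))
  have hn0 : n0 ≤ n := le_trans ((le_max_left _ _).trans (le_max_left _ _)) hnn
  have hn2 : n2 ≤ n := le_trans ((le_max_right _ _).trans (le_max_left _ _)) hnn
  have hn3 : n3 ≤ n := le_trans ((le_max_left _ _).trans (le_max_right _ _)) hnn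
  have hn4' : n4 ≤ n := le_trans ((le_max_left _ _).trans ((le_max_right _ _).trans
    (le_max_right _ _))) hnn
  have hn1 : 1 ≤ n := le_trans ((le_max_right _ _).trans ((le_max_right _ _).trans
    (le_max_right _ _))) hnn
  have hnpos : (0 : ℝ) < n := by exact_mod_cast hn1
  have hwn : n / M ≤ n := Nat.div_le_self n M
  set w := n / M with hw
  set u := CH μ Λ (fun ω => (Θ ω, t ω, Z ω)) with hu
  set hxx := CH μ (fun ω => cel n (x ω)) Z with hhxx
  have hηn : 0 ≤ η * n := by positivity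
  have hu1 : u ≤ (ν + ε1) * n := by
    refine hNB n hn3 Ω ζ θ μ Z a x t Θ Λ (hs_mono hHS bη3) (hMI.trans ?_) (hYn.trans ?_)
    · exact mul_le_mul_of_nonneg_right bη3 hnpos.le
    · have := mul_le_mul_of_nonneg_right bη3 hnpos.le
      linarith
  have hu2 : (ν - ε1) * n ≤ u := by
    have h1 : 0 ≤ ε' * n := by positivity
    have h2 := hbig.le
    linarith
  obtain ⟨Ω', _, μ', Z', a', x', t', Θ', Λ', c1, c2, c3, c4, c5, c6, c7, c8⟩ :=
    hCC m L n w η Ω ζ θ μ Z a x t Θ Λ hwn hHS hMI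
  have h0 : ∀ v, 0 ≤ μ' v := (c1 ∅).nn
  have hms : mass μ' = 1 := (c1 ∅).ms
  -- the data
  set Q : Ω' → Finset (Fin L) → θ × ℝ := fun v S => (Θ' S v, t' S v) with hQ
  set P : Ω' → Fin m → ℤ := fun v => cel n (Yt (t' ∅ v) (a' v) (x' v)) with hP
  have hYQ : ∀ S, CH μ' (fun v => Yn n (t' S v) (a' v) (x' v) (Λ' S v)) (fun v => (Q v, Z' v)) ≤
      hxx - (γ - η) * n := by
    intro S
    have h1 := hE2.2.1 Ω' (Fin m → ℤ) (θ × ℝ × ζ) ((Finset (Fin L) → θ × ℝ) × ζ) μ'
      (fun v => Yn n (t' S v) (a' v) (x' v) (Λ' S v)) (fun v => (Θ' S v, t' S v, Z' v))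
      (fun v => (Q v, Z' v)) h0 (by
        intro v v' _ _ e
        have e1 := congrFun (Prod.ext_iff.1 e).1 S
        have e2 := (Prod.ext_iff.1 e).2
        have e3 := (Prod.ext_iff.1 e1).1
        have e4 := (Prod.ext_iff.1 e1).2
        exact Prod.ext e3 (Prod.ext e4 e2))
    rw [c4 S] at h1
    exact h1.trans hYn
  have hΛQ : ∀ S, CH μ' (Λ' S) (fun v => (Q v, Z' v)) ≤ u := by
    intro S
    have h1 := hE2.2.1 Ω' (Fin m → ℤ) (θ × ℝ × ζ) ((Finset (Fin L) → θ × ℝ) × ζ) μ'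
      (Λ' S) (fun v => (Θ' S v, t' S v, Z' v)) (fun v => (Q v, Z' v)) h0 (by
        intro v v' _ _ e
        have e1 := congrFun (Prod.ext_iff.1 e).1 S
        have e2 := (Prod.ext_iff.1 e).2
        have e3 := (Prod.ext_iff.1 e1).1
        have e4 := (Prod.ext_iff.1 e1).2
        exact Prod.ext e3 (Prod.ext e4 e2))
    rw [c3 S] at h1
    exact h1
  obtain ⟨d1, d2, d3, d4⟩ := hCDA Ω' ζ (Finset (Fin L) → θ × ℝ) ((Fin m → ℝ) × (Fin m → ℝ))
    (Fin m → ℤ) (Finset (Fin L)) μ' Z' Q (fun v => (a' v, x' v)) Λ' P ∅ u (u - η * n)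
    (hxx - (γ - η) * n) (2 ^ (L + 1) * (η * n)) h0 hms (by
      intro v v' _ _ e
      have e1 := (Prod.ext_iff.1 e).1
      have e2 := congrFun (Prod.ext_iff.1 e).2 ∅
      have e3 := (Prod.ext_iff.1 e1).1
      have e4 := (Prod.ext_iff.1 e1).2
      have e5 := (Prod.ext_iff.1 e2).2
      have e3' : a' v = a' v' := e3
      have e4' : x' v = x' v' := e4
      have e5' : t' ∅ v = t' ∅ v' := e5
      simp only [hP, e3', e4', e5']) hΛQ (by
      intro S
      refine (c5 S).trans (le_of_eq ?_)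
      congr 1
      funext v
      congr 1
      funext S'
      by_cases h : S' = S
      · rw [if_pos h, if_pos h]
      · rw [if_neg h, if_neg h]) c6 (hYQ ∅)
  set Lo : Ω' → Finset (Fin L) → Option (Fin m → ℤ) := fun v j =>
    if j = ∅ then none else some (Λ' j v) with hLo
  set c : Ω' → (Fin m → ℤ) × (Finset (Fin L) → θ × ℝ) × ζ := fun v =>
    (P v + Λ' ∅ v, Q v, Z' v) with hc
  set K : Ω' → (Finset (Fin L) → Option (Fin m → ℤ)) × (Fin m → ℤ) ×
    (Finset (Fin L) → θ × ℝ) × ζ := fun v => (Lo v, P v + Λ' ∅ v, Q v, Z' v) with hK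
  have d1' : MI μ' (fun v => (a' v, x' v)) K c ≤
      Fintype.card (Finset (Fin L)) * (u - (u - η * n)) := by
    refine (le_of_eq ?_).trans d1
    congr 1
    funext v
    refine Prod.ext ?_ rfl
    funext j
    by_cases h : j = ∅
    · simp only [hK, hLo, if_pos h]
    · simp only [hK, hLo, if_neg h]
  have d2' : MI μ' (fun v => (a' v, x' v)) K Z' ≤
      2 ^ (L + 1) * (η * n) + (hxx - (γ - η) * n) - (u - η * n) := by
    refine (le_of_eq ?_).trans d2
    congr 1
    funext v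
    refine Prod.ext ?_ rfl
    funext j
    by_cases h : j = ∅
    · simp only [hK, hLo, if_pos h]
    · simp only [hK, hLo, if_neg h]
  have hcard : (Fintype.card (Finset (Fin L)) : ℝ) = 2 ^ L := by
    rw [Fintype.card_finset, Fintype.card_fin]
    push_cast
    rfl
  rw [hcard] at d1'
  have hKc : Dep μ' K c := fun v v' _ _ e => (Prod.ext_iff.1 e).2
  have hKZ : Dep μ' K Z' := fun v v' _ _ e =>
    (Prod.ext_iff.1 (Prod.ext_iff.1 (Prod.ext_iff.1 e).2).2).2
  have hsn : 0 ≤ s * n := by positivity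
  have hε1n : ε1 * n ≤ s / 8 * n := mul_le_mul_of_nonneg_right hε1s hnpos.le
  have hηs : η * n * (16 * 2 ^ L) ≤ s * n := by
    have := mul_le_mul_of_nonneg_right bs hnpos.le
    linarith
  obtain ⟨q1, q2, q3, q4⟩ := num4 hηs hηn hL1
  refine ⟨n, hn0, Ω', _, _, inferInstance, μ', c, K, a', x', t', Λ',
    fun i v => hn n (t' {i} v) - hn n (t' ∅ v), ?_⟩
  refine ⟨h0, hms, (c1 ∅).ab, (c1 ∅).xb, fun S => (c1 S).tb, hKc, ?_, ?_, ?_, ?_, ?_, ?_, ?_, ?_,
    ?_, ?_⟩
  · -- ct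
    intro S v v' _ _ e
    have e1 := congrFun (Prod.ext_iff.1 (Prod.ext_iff.1 e).2).1 S
    exact (Prod.ext_iff.1 e1).2
  · -- kl
    intro S hS v v' _ _ e
    have e1 := congrFun (Prod.ext_iff.1 e).1 S
    simp only [hK, hLo, if_neg hS, Option.some.injEq] at e1
    exact e1
  · -- hp
    intro S v hv
    have := (c7 v hv S).2.1
    linarith
  · -- pb
    intro i v hv
    exact (c7 v hv {i}).2.2
  · -- ps
    intro i
    have hKn : 0 < κ * n := by positivity
    have hwn2 : 2 * w ≤ n := num3 (Nat.div_mul_le_self n M) hM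
    have hwn2' : 2 * (w : ℝ) ≤ n := by exact_mod_cast hwn2
    have hpow : (2 : ℝ) ^ (κ * n) ≤ ((2 ^ (n - w) : ℕ) : ℝ) := by
      push_cast
      rw [← Real.rpow_natCast 2 (n - w)]
      apply Real.rpow_le_rpow_of_exponent_le (by norm_num)
      rw [Nat.cast_sub hwn]
      exact num2 hκ4 hnpos.le hwn2'
    have h1 := hSMP Ω' ζ μ' (fun v => hn n (t' {i} v) - hn n (t' ∅ v)) Z' (2 ^ (n - w)) (κ * n)
      (2 ^ L * (η * n + 1)) h0 hms hKn hpow (by
        intro v hv
        have := (c7 v hv {i}).2.2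
        exact_mod_cast this) (by
        refine le_trans (le_of_eq ?_) (c8 i)
        push_cast
        rw [Real.logb_pow, Real.logb_self_eq_one (by norm_num), Nat.cast_sub hwn, mul_one])
    have h2 : mass (res μ' (fun v => |((hn n (t' {i} v) - hn n (t' ∅ v) : ℤ) : ℝ)| *
        (2 : ℝ) ^ (κ * n) < 2 ^ (n - w))) * (κ * n) ≤ 2 ^ L * (η * n + 1) + 3 := by
      refine le_trans (le_of_eq ?_) h1
      push_cast
      rfl
    have h3 : 2 ^ L * (η * n + 1) + 3 ≤ s * (κ * n) := by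
      have h4 : η * n * (16 * 2 ^ L) ≤ s * (κ * n) := by
        refine (le_of_eq ?_).trans ((mul_le_mul_of_nonneg_right bk hnpos.le).trans
          (le_of_eq ?_))
        · ring
        · ring
      have h5 : 2 * (2 ^ L + 3) ≤ s * (κ * n) := by
        have h6 : 2 * (2 ^ L + 3) / (κ * s) ≤ (n : ℝ) := hn4.trans (by exact_mod_cast hn4')
        rw [div_le_iff₀ (by positivity)] at h6
        exact h6.trans (le_of_eq (by ring))
      exact num1 h4 h5 (by positivity)
    by_contra hcon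
    push Not at hcon
    have h4 := mul_lt_mul_of_pos_right hcon hKn
    linarith
  · -- hx
    have h1 := mi_fun' hE1 hE2 h0 (fun v => (a' v, x' v)) (fun v => cel n (x' v)) K Z' (by
      intro v v' _ _ e
      have e1 : x' v = x' v' := (Prod.ext_iff.1 e).2
      simp only [e1])
    have h2 : MI μ' (fun v => cel n (x' v)) K Z' = CH μ' (fun v => cel n (x' v)) Z' -
        CH μ' (fun v => cel n (x' v)) (fun v => (K v, Z' v)) := rfl
    have h3 := hE2.2.1 Ω' (Fin m → ℤ) _ _ μ' (fun v => cel n (x' v)) K (fun v => (K v, Z' v)) h0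
      (fun v v' _ _ e => (Prod.ext_iff.1 e).1)
    rw [h2, c2] at h1
    rw [pow_succ] at d2'
    linarith
  · -- hy
    intro S hS
    have hTT : TT m n (n / M) γ η2 μ' Z' Q a' x' (t' ∅) (t' S) (Λ' ∅) (Λ' S) := by
      refine ⟨hs_mono (c1 ∅) bη2, hs_mono (c1 S) bη2, ?_, fun v hv => (c7 v hv S).1, ?_, ?_, ?_⟩
      · intro v v' _ _ e
        have e1 := (Prod.ext_iff.1 (congrFun e ∅)).2
        have e2 := (Prod.ext_iff.1 (congrFun e S)).2
        exact Prod.ext e1 e2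
      · have h1 := mi_fun hE2 h0 (fun v => (a' v, x' v)) (fun v => (Q v, fun S => Λ' S v))
          (fun v => (Q v, Λ' ∅ v, Λ' S v)) Z' (by
            intro v v' _ _ e
            have e1 := (Prod.ext_iff.1 e).1
            have e2 := congrFun (Prod.ext_iff.1 e).2 ∅
            have e3 := congrFun (Prod.ext_iff.1 e).2 S
            exact Prod.ext e1 (Prod.ext e2 e3))
        refine h1.trans (c6.trans ?_)
        have h2 := mul_le_mul_of_nonneg_right b2 hnpos.le
        rw [pow_succ]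
        exact (num4 (z := η2 * n) ((le_of_eq (by ring)).trans h2) hηn hL1).1
      · rw [c2]
        have := mul_le_mul_of_nonneg_right bη2 hnpos.le
        have h2 := hYQ ∅
        linarith
      · rw [c2]
        have := mul_le_mul_of_nonneg_right bη2 hnpos.le
        have h2 := hYQ S
        linarith
    have h1 := hT n hn2 Ω' ζ (Finset (Fin L) → θ × ℝ) μ' Z' Q a' x' (t' ∅) (t' S) (Λ' ∅) (Λ' S)
      hTT
    have h2 : CH μ' (fun v => Yn n (t' S v) (a' v) (x' v) (Λ' S v)) c ≤ (ν + ε1) * n := h1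
    refine h2.trans ?_
    linarith
  · -- hl
    intro S hS
    have h1 := d3 S hS
    have h2 : u - η * n ≤ CH μ' (Λ' S) (fun v => ((a' v, x' v), c v)) := h1
    refine le_trans ?_ h2
    linarith
  · -- hi
    linarith
  · -- h0
    have h1 : CH μ' (fun v => cel n (Yt (t' ∅ v) (a' v) (x' v))) c ≤ u := d4
    refine h1.trans (hu1.trans ?_)
    linarith

end

end Pool.Agent.Helper4.HK
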